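import Pool.Agent.H705.FP.Stm

/-!
# Averages of a product of Fejér kernels times a cosine (project FP of helper705, AVE)
-/

set_option autoImplicit false

namespace Pool.Agent.H642.FP

open Pool.Agent.H705.FP
open MeasureTheory Finset

/-- the weights of the Fejér kernel -/
noncomputable def cw (K : ℕ) (k : ℤ) : ℝ := 1 - |(k : ℝ)| / (K + 1)

lemma cw_nonneg {K : ℕ} {k : ℤ} (hk : k ∈ Icc (-(K : ℤ)) K) : 0 ≤ cw K k := by
  rw [mem_Icc] at hk
  unfold cw
  have h1 : |(k : ℝ)| ≤ K := by
    rw [abs_le]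
    exact ⟨by exact_mod_cast hk.1, by exact_mod_cast hk.2⟩
  have h2 : |(k : ℝ)| / (K + 1) ≤ 1 := by
    rw [div_le_one (by positivity)]
    linarith
  linarith

lemma cw_le_one (K : ℕ) (k : ℤ) : cw K k ≤ 1 := by
  unfold cw
  have : 0 ≤ |(k : ℝ)| / (K + 1) := by positivity
  linarith

lemma sin_sum (K : ℕ) (θ : ℝ) :
    ∑ k ∈ Icc (-(K : ℤ)) K, cw K k * Real.sin (k * θ) = 0 := by
  have h : ∑ k ∈ Icc (-(K : ℤ)) K, cw K k * Real.sin (k * θ) =
      ∑ k ∈ Icc (-(K : ℤ)) K, -(cw K k * Real.sin (k * θ)) := by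
    refine sum_bij' (fun k _ => -k) (fun k _ => -k) ?_ ?_ ?_ ?_ ?_
    · intro k hk
      rw [mem_Icc] at hk ⊢
      omega
    · intro k hk
      rw [mem_Icc] at hk ⊢
      omega
    · intro k _
      exact neg_neg k
    · intro k _
      exact neg_neg k
    · intro k _
      unfold cw
      push_cast
      rw [abs_neg, neg_mul, Real.sin_neg]
      ring
  rw [sum_neg_distrib] at h
  linarith

lemma cos_fej (K : ℕ) (A θ : ℝ) :
    Real.cos A * fej K θ = ∑ k ∈ Icc (-(K : ℤ)) K, cw K k * Real.cos (A + k * θ) := by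
  have h1 : ∀ k : ℤ, cw K k * Real.cos (A + k * θ) =
      Real.cos A * (cw K k * Real.cos (k * θ)) - Real.sin A * (cw K k * Real.sin (k * θ)) := by
    intro k
    rw [Real.cos_add]
    ring
  rw [sum_congr rfl fun k _ => h1 k, sum_sub_distrib, ← mul_sum, ← mul_sum, sin_sum, mul_zero,
    sub_zero]
  rfl

lemma fej_cont (K : ℕ) : Continuous (fej K) := by
  unfold fej
  fun_prop

variable {K : ℕ} {γ β : ℕ → ℝ} {H η : ℝ}

lemma int_cont (N : ℕ) (l r : ℝ) : Continuous fun t : ℝ =>
    Real.cos (l * t + r) * ∏ n ∈ range N, fej K (γ n * t + β n) := by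
  refine Continuous.mul (by fun_prop) ?_
  exact continuous_finsetProd _ fun n _ => (fej_cont K).comp (by fun_prop)

/-- the averages -/
noncomputable def Av (K : ℕ) (γ β : ℕ → ℝ) (H : ℝ) (N : ℕ) (l r : ℝ) : ℝ :=
  (1 / H) * ∫ t in H..2 * H, Real.cos (l * t + r) * ∏ n ∈ range N, fej K (γ n * t + β n)

lemma Av_succ (N : ℕ) (l r : ℝ) : Av K γ β H (N + 1) l r =
    ∑ k ∈ Icc (-(K : ℤ)) K, cw K k * Av K γ β H N (l + k * γ N) (r + k * β N) := by
  unfold Av
  have h1 : ∀ t : ℝ, Real.cos (l * t + r) * ∏ n ∈ range (N + 1), fej K (γ n * t + β n) =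
      ∑ k ∈ Icc (-(K : ℤ)) K, cw K k * (Real.cos ((l + k * γ N) * t + (r + k * β N)) *
        ∏ n ∈ range N, fej K (γ n * t + β n)) := by
    intro t
    rw [prod_range_succ, mul_comm (∏ n ∈ range N, fej K (γ n * t + β n)), ← mul_assoc, cos_fej,
      sum_mul]
    refine sum_congr rfl fun k _ => ?_
    rw [show l * t + r + (k : ℝ) * (γ N * t + β N) =
      (l + k * γ N) * t + (r + k * β N) by ring]
    ring
  simp_rw [h1]
  rw [intervalIntegral.integral_finsetSum, mul_sum]
  · refine sum_congr rfl fun k _ => ?_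
    rw [intervalIntegral.integral_const_mul]
    ring
  · intro k _
    exact ((int_cont N _ _).const_smul (cw K k)).intervalIntegrable _ _

lemma Av_zero_zero (hH : 0 < H) : Av K γ β H 0 0 0 = 1 := by
  unfold Av
  simp only [zero_mul, add_zero, Real.cos_zero, range_zero, prod_empty, mul_one]
  rw [intervalIntegral.integral_const]
  have : (2 * H - H) • (1 : ℝ) = H := by
    rw [smul_eq_mul]
    ring
  rw [this]
  field_simp

lemma Av_zero_le (hH : 0 < H) (hη : 0 < η) {l : ℝ} (hl : η ≤ |l|) (r : ℝ) :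
    |Av K γ β H 0 l r| ≤ 2 / (H * η) := by
  have hl0 : l ≠ 0 := by
    intro h
    rw [h, abs_zero] at hl
    linarith
  have hlp : 0 < |l| := abs_pos.2 hl0
  unfold Av
  simp only [range_zero, prod_empty, mul_one]
  have h1 : ∫ t in H..2 * H, Real.cos (l * t + r) =
      l⁻¹ * (Real.sin (l * (2 * H) + r) - Real.sin (l * H + r)) := by
    rw [intervalIntegral.integral_comp_mul_add (fun x => Real.cos x) hl0 r, integral_cos,
      smul_eq_mul]
  rw [h1, abs_mul, abs_mul, abs_inv, abs_of_pos (one_div_pos.2 hH)]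
  have h2 : |Real.sin (l * (2 * H) + r) - Real.sin (l * H + r)| ≤ 2 := by
    have h3 := abs_sub (Real.sin (l * (2 * H) + r)) (Real.sin (l * H + r))
    have h4 := Real.abs_sin_le_one (l * (2 * H) + r)
    have h5 := Real.abs_sin_le_one (l * H + r)
    linarith
  have h6 : |l|⁻¹ ≤ η⁻¹ := inv_anti₀ hη hl
  calc 1 / H * (|l|⁻¹ * |Real.sin (l * (2 * H) + r) - Real.sin (l * H + r)|)
      ≤ 1 / H * (η⁻¹ * 2) := by
        refine mul_le_mul_of_nonneg_left ?_ (one_div_pos.2 hH).le
        exact mul_le_mul h6 h2 (abs_nonneg _) (inv_nonneg.2 hη.le)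
    _ = 2 / (H * η) := by field_simp

lemma card_K (K : ℕ) : ((Icc (-(K : ℤ)) K).card : ℝ) = 2 * K + 1 := by
  rw [Int.card_Icc]
  have h1 : ((K : ℤ) + 1 - -(K : ℤ)).toNat = 2 * K + 1 := by omega
  rw [h1]
  push_cast
  ring

lemma sum_est {v : ℤ → ℝ} {k0 : ℤ} (hk0 : k0 ∈ Icc (-(K : ℤ)) K) {τ B : ℝ} (hB : 0 ≤ B)
    (h0 : |cw K k0 * v k0 - τ| ≤ B)
    (h1 : ∀ k ∈ Icc (-(K : ℤ)) K, k ≠ k0 → |v k| ≤ B) :
    |∑ k ∈ Icc (-(K : ℤ)) K, cw K k * v k - τ| ≤ (2 * K + 1) * B := by
  rw [← add_sum_erase _ _ hk0]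
  have h2 : |∑ k ∈ (Icc (-(K : ℤ)) K).erase k0, cw K k * v k| ≤ (2 * K) * B := by
    refine (abs_sum_le_sum_abs _ _).trans ?_
    have h3 : ∀ k ∈ (Icc (-(K : ℤ)) K).erase k0, |cw K k * v k| ≤ B := by
      intro k hk
      rw [mem_erase] at hk
      rw [abs_mul, abs_of_nonneg (cw_nonneg hk.2)]
      calc cw K k * |v k| ≤ 1 * |v k| :=
            mul_le_mul_of_nonneg_right (cw_le_one K k) (abs_nonneg _)
        _ ≤ B := by rw [one_mul]; exact h1 k hk.2 hk.1
    refine (sum_le_sum h3).trans ?_
    rw [sum_const, nsmul_eq_mul]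
    have h4 : (((Icc (-(K : ℤ)) K).erase k0).card : ℝ) = 2 * K := by
      have h5 : ((Icc (-(K : ℤ)) K).erase k0).card + 1 = (Icc (-(K : ℤ)) K).card :=
        card_erase_add_one hk0
      have h6 := card_K K
      rw [← h5] at h6
      push_cast at h6
      linarith
    rw [h4]
  have h7 : cw K k0 * v k0 + ∑ k ∈ (Icc (-(K : ℤ)) K).erase k0, cw K k * v k - τ =
      (cw K k0 * v k0 - τ) + ∑ k ∈ (Icc (-(K : ℤ)) K).erase k0, cw K k * v k := by ring
  rw [h7]
  refine (abs_add_le _ _).trans ?_
  linarith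

/-- the bound of the averages if no combination vanishes -/
lemma Av_le (hH : 0 < H) (hη : 0 < η) : ∀ (N : ℕ) (l r : ℝ),
    (∀ k : ℕ → ℤ, (∀ n, |k n| ≤ (K : ℤ)) → η ≤ |l + ∑ n ∈ range N, (k n : ℝ) * γ n|) →
    |Av K γ β H N l r| ≤ (2 * K + 1) ^ N * 2 / (H * η) := by
  intro N
  induction N with
  | zero =>
    intro l r h
    have h1 := h (fun _ => 0) (fun _ => by rw [abs_zero]; exact Int.natCast_nonneg K)
    rw [range_zero, sum_empty, add_zero] at h1
    rw [pow_zero, one_mul]
    exact Av_zero_le hH hη h1 r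
  | succ N ih =>
    intro l r h
    rw [Av_succ]
    have hB : (0 : ℝ) ≤ (2 * K + 1) ^ N * 2 / (H * η) := by positivity
    have h1 : ∀ k ∈ Icc (-(K : ℤ)) K,
        |cw K k * Av K γ β H N (l + k * γ N) (r + k * β N)| ≤
          (2 * K + 1) ^ N * 2 / (H * η) := by
      intro k hk
      have hk' := mem_Icc.1 hk
      rw [abs_mul, abs_of_nonneg (cw_nonneg hk)]
      have h2 : |Av K γ β H N (l + k * γ N) (r + k * β N)| ≤
          (2 * K + 1) ^ N * 2 / (H * η) := by
        apply ih
        intro q hq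
        have h3 := h (fun n => if n = N then k else q n) (fun n => by
          by_cases hn : n = N
          · rw [if_pos hn]
            exact abs_le.2 hk'
          · rw [if_neg hn]
            exact hq n)
        rw [sum_range_succ, if_pos rfl] at h3
        have h4 : ∑ n ∈ range N, ((if n = N then k else q n : ℤ) : ℝ) * γ n =
            ∑ n ∈ range N, (q n : ℝ) * γ n := by
          refine sum_congr rfl fun n hn => ?_
          rw [if_neg (mem_range.1 hn).ne]
        rw [h4] at h3
        rw [show l + (k : ℝ) * γ N + ∑ n ∈ range N, (q n : ℝ) * γ n =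
          l + (∑ n ∈ range N, (q n : ℝ) * γ n + (k : ℝ) * γ N) by ring]
        exact h3
      calc cw K k * |Av K γ β H N (l + k * γ N) (r + k * β N)|
          ≤ 1 * |Av K γ β H N (l + k * γ N) (r + k * β N)| :=
            mul_le_mul_of_nonneg_right (cw_le_one K k) (abs_nonneg _)
        _ ≤ _ := by rw [one_mul]; exact h2
    refine (abs_sum_le_sum_abs _ _).trans ((sum_le_sum h1).trans ?_)
    rw [sum_const, nsmul_eq_mul, card_K, pow_succ]
    apply le_of_eq
    ring

/-- separation of the forms in the first `N` frequencies -/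
def Sp (γ : ℕ → ℝ) (K : ℕ) (η : ℝ) (N : ℕ) : Prop :=
  ∀ k : ℕ → ℤ, (∀ n, |k n| ≤ (K : ℤ) + 1) → (∃ n < N, k n ≠ 0) →
    η ≤ |∑ n ∈ range N, (k n : ℝ) * γ n|

lemma Sp.pred {N : ℕ} (h : Sp γ K η (N + 1)) : Sp γ K η N := by
  intro k hk hex
  obtain ⟨n, hn, hn0⟩ := hex
  have h1 := h (fun n => if n = N then 0 else k n) (fun n => by
    by_cases hn : n = N
    · rw [if_pos hn, abs_zero]
      positivity
    · rw [if_neg hn]
      exact hk n) ⟨n, by omega, by rw [if_neg hn.ne]; exact hn0⟩
  rw [sum_range_succ, if_pos rfl, Int.cast_zero, zero_mul, add_zero] at h1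
  have h4 : ∑ n ∈ range N, ((if n = N then 0 else k n : ℤ) : ℝ) * γ n =
      ∑ n ∈ range N, (k n : ℝ) * γ n := by
    refine sum_congr rfl fun n hn => ?_
    rw [if_neg (mem_range.1 hn).ne]
  rwa [h4] at h1

/-- the terms with a nonzero coefficient at `N` -/
lemma Av_new (hH : 0 < H) (hη : 0 < η) {N : ℕ} (h : Sp γ K η (N + 1)) {c : ℤ} (hc : c ≠ 0)
    (hcK : |c| ≤ (K : ℤ) + 1) {l : ℝ} (hl : l = c * γ N) (r : ℝ) :
    |Av K γ β H N l r| ≤ (2 * K + 1) ^ N * 2 / (H * η) := by
  apply Av_le hH hη
  intro q hq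
  have h1 := h (fun n => if n = N then c else q n) (fun n => by
    by_cases hn : n = N
    · rw [if_pos hn]
      exact hcK
    · rw [if_neg hn]
      have := hq n
      omega) ⟨N, Nat.lt_succ_self N, by rw [if_pos rfl]; exact hc⟩
  rw [sum_range_succ, if_pos rfl] at h1
  have h4 : ∑ n ∈ range N, ((if n = N then c else q n : ℤ) : ℝ) * γ n =
      ∑ n ∈ range N, (q n : ℝ) * γ n := by
    refine sum_congr rfl fun n hn => ?_
    rw [if_neg (mem_range.1 hn).ne]
  rw [h4, add_comm] at h1
  rw [hl]
  exact h1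

lemma Av_one (hH : 0 < H) (hη : 0 < η) : ∀ N : ℕ, Sp γ K η N →
    |Av K γ β H N 0 0 - 1| ≤ (2 * K + 1) ^ N * 2 / (H * η) := by
  intro N
  induction N with
  | zero =>
    intro _
    rw [Av_zero_zero hH, sub_self, abs_zero]
    positivity
  | succ N ih =>
    intro h
    rw [Av_succ]
    have hB : (0 : ℝ) ≤ (2 * K + 1) ^ N * 2 / (H * η) := by positivity
    have h0 : (0 : ℤ) ∈ Icc (-(K : ℤ)) K := by
      rw [mem_Icc]
      omega
    have h1 := sum_est (v := fun k : ℤ => Av K γ β H N (0 + k * γ N) (0 + k * β N)) h0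
      (τ := 1) hB (by
        have h2 : cw K 0 = 1 := by unfold cw; simp
        rw [h2, one_mul, Int.cast_zero, zero_mul, zero_mul, add_zero]
        exact ih h.pred) (by
        intro k hk hk0
        have hk' := mem_Icc.1 hk
        exact Av_new hH hη h hk0 (by rw [abs_le]; omega) (by ring) _)
    refine h1.trans (le_of_eq ?_)
    rw [pow_succ]
    ring

lemma Av_cos (hK : 1 ≤ K) (hH : 0 < H) (hη : 0 < η) : ∀ N : ℕ, Sp γ K η N → ∀ m < N,
    |Av K γ β H N (γ m) (β m) - K / (K + 1)| ≤ (2 * K + 1) ^ N * 2 / (H * η) := by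
  intro N
  induction N with
  | zero =>
    intro _ m hm
    exact absurd hm (Nat.not_lt_zero m)
  | succ N ih =>
    intro h m hm
    rw [Av_succ]
    have hB : (0 : ℝ) ≤ (2 * K + 1) ^ N * 2 / (H * η) := by positivity
    have hfin : (2 * (K : ℝ) + 1) * ((2 * K + 1) ^ N * 2 / (H * η)) =
        (2 * K + 1) ^ (N + 1) * 2 / (H * η) := by
      rw [pow_succ]
      ring
    rcases Nat.lt_succ_iff_lt_or_eq.1 hm with hmN | hmN
    · have h0 : (0 : ℤ) ∈ Icc (-(K : ℤ)) K := by
        rw [mem_Icc]
        omega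
      have h1 := sum_est (v := fun k : ℤ => Av K γ β H N (γ m + k * γ N) (β m + k * β N)) h0
        (τ := K / (K + 1)) hB (by
          have h2 : cw K 0 = 1 := by unfold cw; simp
          rw [h2, one_mul, Int.cast_zero, zero_mul, zero_mul, add_zero, add_zero]
          exact ih h.pred m hmN) (by
          intro k hk hk0
          have hk' := mem_Icc.1 hk
          apply Av_le hH hη
          intro q hq
          have h3 := h (fun n => (if n = N then k else q n) + (if n = m then 1 else 0))
            (fun n => by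
              have h5 := hq n
              rw [abs_le] at h5 ⊢
              by_cases hn : n = N
              · rw [if_pos hn]
                split_ifs <;> omega
              · rw [if_neg hn]
                split_ifs <;> omega) ⟨N, Nat.lt_succ_self N, by
                  rw [if_pos rfl, if_neg (by omega), add_zero]
                  exact hk0⟩
          rw [sum_range_succ, if_pos rfl, if_neg (by omega : ¬ N = m), add_zero] at h3
          have h4 : ∑ n ∈ range N,
              (((if n = N then k else q n) + (if n = m then 1 else 0) : ℤ) : ℝ) * γ n =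
              ∑ n ∈ range N, (q n : ℝ) * γ n + γ m := by
            have h6 : ∀ n ∈ range N,
                (((if n = N then k else q n) + (if n = m then 1 else 0) : ℤ) : ℝ) * γ n =
                (q n : ℝ) * γ n + (if n = m then γ n else 0) := by
              intro n hn
              rw [if_neg (mem_range.1 hn).ne]
              push_cast
              split_ifs <;> ring
            rw [sum_congr rfl h6, sum_add_distrib, sum_ite_eq' (range N) m γ,
              if_pos (mem_range.2 hmN)]
          rw [h4] at h3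
          rw [show γ m + (k : ℝ) * γ N + ∑ n ∈ range N, (q n : ℝ) * γ n =
            ∑ n ∈ range N, (q n : ℝ) * γ n + γ m + (k : ℝ) * γ N by ring]
          exact h3)
      rw [← hfin]
      exact h1
    · subst hmN
      have h0 : (-1 : ℤ) ∈ Icc (-(K : ℤ)) K := by
        rw [mem_Icc]
        omega
      have h1 := sum_est (v := fun k : ℤ => Av K γ β H m (γ m + k * γ m) (β m + k * β m)) h0
        (τ := K / (K + 1)) hB (by
          have h2 : cw K (-1) = K / (K + 1) := by
            unfold cw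
            have : (K : ℝ) + 1 ≠ 0 := by positivity
            rw [Int.cast_neg, Int.cast_one, abs_neg, abs_one]
            field_simp
            ring
          have h3 : γ m + ((-1 : ℤ) : ℝ) * γ m = 0 := by push_cast; ring
          have h4 : β m + ((-1 : ℤ) : ℝ) * β m = 0 := by push_cast; ring
          rw [h2, h3, h4]
          have h5 := Av_one (β := β) hH hη m h.pred
          have h6 : (K : ℝ) / (K + 1) * Av K γ β H m 0 0 - K / (K + 1) =
              K / (K + 1) * (Av K γ β H m 0 0 - 1) := by ring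
          have h7 : (K : ℝ) / (K + 1) ≤ 1 := by
            rw [div_le_one (by positivity)]
            linarith
          have h8 : (0 : ℝ) ≤ (K : ℝ) / (K + 1) := by positivity
          rw [h6, abs_mul, abs_of_nonneg h8]
          calc (K : ℝ) / (K + 1) * |Av K γ β H m 0 0 - 1|
              ≤ 1 * |Av K γ β H m 0 0 - 1| := mul_le_mul_of_nonneg_right h7 (abs_nonneg _)
            _ ≤ _ := by rw [one_mul]; exact h5) (by
          intro k hk hk0
          have hk' := mem_Icc.1 hk
          exact Av_new hH hη h (c := 1 + k) (by omega) (by rw [abs_le]; omega)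
            (by push_cast; ring) _)
      rw [← hfin]
      exact h1

theorem t_AVE : P_AVE := by
  intro γ β K N M η H hK hNM hη hH h
  have hSp : Sp γ K η N := by
    intro k hk hex
    have h1 := h k hk 0 (by norm_num) N le_rfl hNM (Or.inl hex)
    rwa [Int.cast_zero, zero_mul, add_zero] at h1
  refine ⟨?_, ?_, ?_⟩
  · have h1 := Av_one (β := β) hH hη N hSp
    unfold Av at h1
    simp only [zero_mul, add_zero, Real.cos_zero, one_mul] at h1
    exact h1
  · intro m hm
    exact Av_cos hK hH hη N hSp m hm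
  · intro m hm hmM
    have h1 : |Av K γ β H N (γ m) (β m)| ≤ (2 * K + 1) ^ N * 2 / (H * η) := by
      apply Av_le hH hη
      intro q hq
      have h2 := h q (fun n => by have := hq n; omega) 1 (by norm_num) m hm hmM
        (Or.inr one_ne_zero)
      rw [Int.cast_one, one_mul, add_comm] at h2
      exact h2
    exact h1

theorem T_AVE (_hFEJ : P_FEJ) : P_AVE := t_AVE

end Pool.Agent.H642.FP
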